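import Mathlib
import Pool.Agent.Lib.MP_7b2682_an.Final

/-!
MP_7b2682_an: a frequently recurrent operator on `ℓ¹` whose frequently recurrent vectors are not
dense lineable.
-/

set_option autoImplicit false

open Topology Filter

namespace Pool.Agent.Results.MP_7b2682_an.FRecNotDenseLineable

section Defs

variable {𝕜 X : Type*} [RCLike 𝕜] [NormedAddCommGroup X] [NormedSpace 𝕜 X]

/-- The return set `N_T(x,U) = {n ≥ 1 : T^n x ∈ U}`. -/
def returnSet (T : X →L[𝕜] X) (x : X) (U : Set X) : Set ℕ := {n | 1 ≤ n ∧ (⇑T)^[n] x ∈ U}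

/-- The lower density `liminf_{N → ∞} #(A ∩ [1,N]) / N` of a set of natural numbers. -/
noncomputable def lowerDensity (A : Set ℕ) : ℝ :=
  liminf (fun N : ℕ => ((A ∩ Set.Icc 1 N).ncard : ℝ) / (N : ℝ)) atTop

/-- The frequently recurrent vectors of `T`: for every neighbourhood `U` of `x` the return set
`N_T(x,U)` has positive lower density. -/
def FRec (T : X →L[𝕜] X) : Set X := {x | ∀ U ∈ 𝓝 x, 0 < lowerDensity (returnSet T x U)}

variable (𝕜) in
/-- `A` is dense lineable: `A ∪ {0}` contains a dense vector subspace. -/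
def DenseLineable (A : Set X) : Prop :=
  ∃ M : Submodule 𝕜 X, Dense (M : Set X) ∧ (M : Set X) ⊆ A ∪ {0}

end Defs

/-- The real Banach space `ℓ¹(ℕ × ℕ)`. -/
def L1 : Type := lp (fun _ : ℕ × ℕ => ℝ) 1

/-- The norm of `ℓ¹(ℕ × ℕ)`. -/
noncomputable instance instGroupL1 : NormedAddCommGroup L1 :=
  lp.normedAddCommGroup (E := fun _ : ℕ × ℕ => ℝ) (p := 1)

/-- `ℓ¹(ℕ × ℕ)` as a real normed space. -/
noncomputable instance instSpaceL1 : NormedSpace ℝ L1 :=
  lp.instNormedSpace (𝕜 := ℝ) (E := fun _ : ℕ × ℕ => ℝ) (p := 1)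

/-- The coordinates of a point of `ℓ¹(ℕ × ℕ)`. -/
def coord (x : L1) (k n : ℕ) : ℝ := (show lp (fun _ : ℕ × ℕ => ℝ) 1 from x) (k, n)

lemma ncard_le (A : Set ℕ) (N : ℕ) : (A ∩ Set.Icc 1 N).ncard ≤ N := by
  calc (A ∩ Set.Icc 1 N).ncard ≤ (Set.Icc 1 N).ncard :=
        Set.ncard_le_ncard Set.inter_subset_right (Set.finite_Icc 1 N)
    _ = N := by rw [← Finset.coe_Icc, Set.ncard_coe_finset, Nat.card_Icc]; omega

lemma ratio_nonneg (A : Set ℕ) (N : ℕ) : (0:ℝ) ≤ ((A ∩ Set.Icc 1 N).ncard : ℝ) / (N : ℝ) := by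
  positivity

lemma ratio_le_one (A : Set ℕ) (N : ℕ) : ((A ∩ Set.Icc 1 N).ncard : ℝ) / (N : ℝ) ≤ 1 :=
  div_le_one_of_le₀ (by exact_mod_cast ncard_le A N) (Nat.cast_nonneg N)

/-- Positive lower density, written out. -/
lemma lowerDensity_pos_iff (A : Set ℕ) : 0 < lowerDensity A ↔
    ∃ δ : ℝ, 0 < δ ∧ ∃ N₀ : ℕ, ∀ N : ℕ, N₀ ≤ N →
      δ * (N : ℝ) ≤ ((A ∩ Set.Icc 1 N).ncard : ℝ) := by
  have hb : IsBoundedUnder (· ≥ ·) atTop
      (fun N : ℕ => ((A ∩ Set.Icc 1 N).ncard : ℝ) / (N : ℝ)) :=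
    isBoundedUnder_of ⟨0, fun N => ratio_nonneg A N⟩
  have hc : IsCoboundedUnder (· ≥ ·) atTop
      (fun N : ℕ => ((A ∩ Set.Icc 1 N).ncard : ℝ) / (N : ℝ)) :=
    (isBoundedUnder_of ⟨1, fun N => ratio_le_one A N⟩ :
      IsBoundedUnder (· ≤ ·) atTop _).isCoboundedUnder_ge
  constructor
  · intro h
    have h1 := eventually_lt_of_lt_liminf (show lowerDensity A / 2 < lowerDensity A by linarith) hb
    obtain ⟨N₀, hN⟩ := eventually_atTop.1 h1
    refine ⟨lowerDensity A / 2, by linarith, N₀ + 1, fun N hNN => ?_⟩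
    have h2 := hN N (by omega)
    have hN0 : (0:ℝ) < N := by
      have : 0 < N := by omega
      exact_mod_cast this
    exact ((lt_div_iff₀ hN0).1 h2).le
  · rintro ⟨δ, hδ, N₀, hN⟩
    refine lt_of_lt_of_le hδ (le_liminf_of_le hc ?_)
    filter_upwards [eventually_ge_atTop (N₀ + 1)] with N hNN
    have hN0 : (0:ℝ) < N := by
      have : 0 < N := by omega
      exact_mod_cast this
    rw [le_div_iff₀ hN0]
    exact hN N (by omega)

lemma returnSet_inter {X : Type*} [NormedAddCommGroup X] [NormedSpace ℝ X] (T : X →L[ℝ] X)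
    (x : X) (U : Set X) (N : ℕ) :
    returnSet T x U ∩ Set.Icc 1 N = {n : ℕ | 1 ≤ n ∧ n ≤ N ∧ (T ^ n) x ∈ U} := by
  ext n
  simp only [returnSet, Set.mem_inter_iff, Set.mem_ofPred_eq, Set.mem_Icc]
  rw [FunLike.coe_pow_eq_iterate]
  tauto

lemma mem_FRec_iff (x : FRecEx.X) : x ∈ FRec FRecEx.T ↔ FRecEx.FR x := by
  unfold FRec FRecEx.FR
  simp only [Set.mem_ofPred_eq, lowerDensity_pos_iff, returnSet_inter]

lemma zero_FR : FRecEx.FR 0 := by
  intro V hV
  refine ⟨1, one_pos, 0, fun N _ => ?_⟩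
  have h : {n : ℕ | 1 ≤ n ∧ n ≤ N ∧ (FRecEx.T ^ n) 0 ∈ V} = Set.Icc 1 N := by
    ext n
    simp only [Set.mem_ofPred_eq, Set.mem_Icc, map_zero]
    exact ⟨fun h => ⟨h.1, h.2.1⟩, fun h => ⟨h.1, h.2, mem_of_mem_nhds hV⟩⟩
  rw [h, ← Finset.coe_Icc, Set.ncard_coe_finset, Nat.card_Icc]
  simp

/-- A vector subspace of frequently recurrent vectors lies in the closed subspace of the vectors
supported on finitely many rows. -/
lemma rows (M : Submodule ℝ FRecEx.X) (hFR : ∀ x ∈ M, FRecEx.FR x) :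
    ∃ l : ℕ, ∀ x ∈ M, ∀ k n : ℕ, l < k → x (k, n) = 0 := by
  have key : ∃ l, ∀ m ∈ M, ∀ ν, FRecEx.bb m ν ≠ 0 → ν.1 = l := by
    by_cases hex : ∃ m ∈ M, ∃ ν, FRecEx.bb m ν ≠ 0
    · obtain ⟨m₀, hm₀, ν₀, hν₀⟩ := hex
      refine ⟨ν₀.1, fun m hm ν hν => ?_⟩
      by_contra hne
      have hb1 : FRecEx.bb m₀ ν = 0 := by
        by_contra hcon
        exact hne (FRecEx.same_type (hFR _ hm₀) hcon hν₀)
      have hb2 : FRecEx.bb m ν₀ = 0 := by
        by_contra hcon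
        exact hne (FRecEx.same_type (hFR _ hm) hν hcon)
      have hsum := M.add_mem hm hm₀
      have hb3 : FRecEx.bb (m + m₀) ν ≠ 0 := by
        rw [FRecEx.bb_add (hFR _ hm) (hFR _ hm₀) (hFR _ hsum), hb1, add_zero]; exact hν
      have hb4 : FRecEx.bb (m + m₀) ν₀ ≠ 0 := by
        rw [FRecEx.bb_add (hFR _ hm) (hFR _ hm₀) (hFR _ hsum), hb2, zero_add]; exact hν₀
      exact hne (FRecEx.same_type (hFR _ hsum) hb3 hb4)
    · push Not at hex
      exact ⟨0, fun m hm ν hν => absurd (hex m hm ν) hν⟩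
  obtain ⟨l, hl⟩ := key
  refine ⟨l, fun x hx k n hk => ?_⟩
  apply FRecEx.coord_zero (hFR x hx) (k, n)
  intro ν hν
  by_contra hcon
  have := hl x hx ν hcon
  simp only at hν
  omega

/-- **Theorem.** There is a bounded operator `T` on the real Banach space `ℓ¹(ℕ × ℕ)`, of norm at
most `3`, that is frequently recurrent (`FRec T` is dense) while `FRec T` is not dense lineable.
Moreover for every vector subspace `M` of `FRec T ∪ {0}` there is `l` such that the vectors of `M`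
vanish on all rows `k > l`. -/
theorem result : ∃ T : L1 →L[ℝ] L1, ‖T‖ ≤ 3 ∧ Dense (FRec T) ∧ ¬ DenseLineable ℝ (FRec T) ∧
    ∀ M : Submodule ℝ L1, (M : Set L1) ⊆ FRec T ∪ {0} →
      ∃ l : ℕ, ∀ x ∈ M, ∀ k n : ℕ, l < k → coord x k n = 0 := by
  have hset : FRec FRecEx.T = {x | FRecEx.FR x} := Set.ext mem_FRec_iff
  have hzero : FRec FRecEx.T ∪ {0} = {x | FRecEx.FR x} := by
    rw [hset]
    ext x
    simp only [Set.mem_union, Set.mem_ofPred_eq, Set.mem_singleton_iff]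
    exact ⟨fun h => h.elim id (fun h0 => h0 ▸ zero_FR), Or.inl⟩
  refine ⟨FRecEx.T, FRecEx.norm_lift_le _ _ _ (by norm_num), ?_, ?_, ?_⟩
  · change Dense (FRec FRecEx.T)
    rw [hset]; exact FRecEx.dense_FR
  · rintro ⟨M, hM, hFR⟩
    let M' : Submodule ℝ FRecEx.X := M
    have hFR' : (M' : Set FRecEx.X) ⊆ FRec FRecEx.T ∪ {0} := hFR
    rw [hzero] at hFR'
    exact FRecEx.no_dense M' hM hFR'
  · intro M hM
    let M' : Submodule ℝ FRecEx.X := M
    have hM' : (M' : Set FRecEx.X) ⊆ FRec FRecEx.T ∪ {0} := hM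
    rw [hzero] at hM'
    exact rows M' (fun x hx => hM' hx)

end Pool.Agent.Results.MP_7b2682_an.FRecNotDenseLineable
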